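import Pool.Agent.W209.CF.Basic

/-!
MP_dcfb8f_co: the choice of the state (chain argument).
-/

namespace Pool.Agent.W370.CF3

open Finset Pool.Agent.W209.CF

section
variable {V E : Type} [Fintype V] [DecidableEq V] [Fintype E] [DecidableEq E]
variable {inc : E → Finset V}

/-- a nonempty set of coloured hyperedges, closed under adjacency and connected -/
structure CC (inc : E → Finset V) (t : E → Fin 3) (C : Finset E) : Prop where
  ne : C.Nonempty
  col : ∀ e ∈ C, t e ≠ 0
  clo : ∀ e ∈ C, ∀ e', Adj inc t e e' → e' ∈ C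
  con : ∀ e ∈ C, ∀ e' ∈ C, Relation.ReflTransGen (Adj inc t) e e'

theorem clo_chain {t : E → Fin 3} {C : Finset E} (clo : ∀ e ∈ C, ∀ e', Adj inc t e e' → e' ∈ C)
    {e e' : E} (he : e ∈ C) (h : Relation.ReflTransGen (Adj inc t) e e') : e' ∈ C := by
  induction h with
  | refl => exact he
  | tail _ h2 ih => exact clo _ ih _ h2

theorem CC.eq {t : E → Fin 3} {C C' : Finset E} (h : CC inc t C) (h' : CC inc t C') {e : E}
    (he : e ∈ C) (he' : e ∈ C') : C = C' := by
  apply Finset.Subset.antisymm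
  · intro x hx
    exact clo_chain h'.clo he' (h.con e he x hx)
  · intro x hx
    exact clo_chain h.clo he (h'.con e he' x hx)

theorem adj_sym (t : E → Fin 3) {e e' : E} (h : Relation.ReflTransGen (Adj inc t) e e') :
    Relation.ReflTransGen (Adj inc t) e' e := by
  induction h with
  | refl => exact Relation.ReflTransGen.refl
  | tail _ h2 ih => exact Relation.ReflTransGen.head (Adj.symm h2) ih

theorem entry_dg {s : E → Fin 3} {u : V} {h : E} (hE : Entry inc s u h) {e : E} (he : s e ≠ 0)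
    {v : V} (hv : v ∈ inc e) : v ≠ u := by
  rintro rfl
  exact (dg_pos.2 ⟨e, hv, he⟩) hE.2.1

theorem entry_unc {s : E → Fin 3} {u : V} {h : E} (hE : Entry inc s u h) : s h = 0 := by
  exact dg_eq_zero.1 hE.2.1 h hE.1

/-- the component of an entry is connected, closed and nonempty -/
theorem comp_CC (h1 : S_F1) (h3 : ∀ e, (inc e).card = 3) {s : E → Fin 3} (hs : Opt2 inc s)
    {u : V} {h : E} (hE : Entry inc s u h) : CC inc s (comp inc s h) := by
  refine ⟨?_, ?_, ?_, ?_⟩
  · have hc : 1 < (inc h).card := by rw [h3 h]; omega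
    obtain ⟨a, ha, hau⟩ := Finset.exists_mem_ne hc u
    have h4 : dg inc s a ≠ 0 := by rw [hE.2.2 a ha hau]; omega
    obtain ⟨e, he1, he2⟩ := dg_pos.1 h4
    exact ⟨e, comp_touch he2 ha he1⟩
  · intro e he
    exact (mem_comp.1 he).1
  · intro e he e' h4
    exact comp_closed he h4
  · intro e1 he1 e2 he2
    obtain ⟨-, f1, g1, ⟨v1, k1, k1'⟩, c1⟩ := mem_comp.1 he1
    obtain ⟨-, f2, g2, ⟨v2, k2, k2'⟩, c2⟩ := mem_comp.1 he2
    have hv1 := entry_dg hE g1 k1'
    have hv2 := entry_dg hE g2 k2'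
    have hmid : Relation.ReflTransGen (Adj inc s) f1 f2 := by
      by_cases hv : v1 = v2
      · subst hv
        exact Relation.ReflTransGen.single ⟨g1, g2, v1, k1', k2'⟩
      · exact (h1 V E inc h3 s hs u h hE v1 k1 v2 k2 hv1 hv2 hv f1 f2 g1 k1' g2 k2').1
    exact ((adj_sym s c1).trans hmid).trans c2

/-- two vertices of an entry different from the hole lie in its component -/
theorem entry_two (h3 : ∀ e, (inc e).card = 3) {s : E → Fin 3} {u : V} {h : E}
    (hE : Entry inc s u h) {K : Finset E} (hK : comp inc s h ⊆ K) (hu : u ∉ VK inc K)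
    (hw : weakK inc K) : False := by
  have hsub : (inc h).erase u ⊆ inc h ∩ VK inc K := by
    intro x hx
    rw [mem_erase] at hx
    rw [mem_inter]
    refine ⟨hx.2, ?_⟩
    have h4 : dg inc s x ≠ 0 := by rw [hE.2.2 x hx.2 hx.1]; omega
    obtain ⟨e, he1, he2⟩ := dg_pos.1 h4
    exact mem_VK.2 ⟨e, hK (comp_touch he2 hx.2 he1), he1⟩
  have hcard : 2 ≤ (inc h ∩ VK inc K).card := by
    refine le_trans (le_of_eq ?_) (Finset.card_le_card hsub)
    rw [Finset.card_erase_of_mem hE.1, h3 h]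
  have hh : h ∉ K := by
    intro hh
    exact hu (mem_VK.2 ⟨h, hh, hE.1⟩)
  have h5 := hw h hh hcard hE.1
  rw [mem_pri] at h5
  exact hu (kd_pos.1 (by omega))

/-- the vertices of `KK` that are holes -/
theorem hole_KK {s : E → Fin 3} {u : V} {h : E} (hE : Entry inc s u h) {w : V}
    (hw : w ∈ VK inc (KK inc s h)) (h0 : dg inc s w = 0) : w = u := by
  rw [mem_VK] at hw
  obtain ⟨e, he, hwe⟩ := hw
  rw [KK, mem_insert] at he
  by_contra hne
  rcases he with rfl | he
  · have := hE.2.2 w hwe hne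
    omega
  · exact (dg_pos.2 ⟨e, hwe, (mem_comp.1 he).1⟩) h0

/-- the chain -/
structure Ch (inc : E → Finset V) (s : E → Fin 3) (X : Finset E) (u0 : V) (t : E → Fin 3)
    (v : V) (Cs : Finset (Finset E)) (Cst : Finset E) : Prop where
  opt : Opt3 inc t X
  vA : v ∉ (LL inc s X).erase u0
  LLt : LL inc t X = insert v ((LL inc s X).erase u0)
  wk : ∀ u' ∈ (LL inc s X).erase u0, wks inc t u' ⊆ wks inc s u'
  cc : ∀ C ∈ Cs, CC inc t C
  K : ∀ C ∈ Cs, ∃ K, C ⊆ K ∧ weakK inc K ∧
    (∀ x ∈ VK inc K, x = v ∨ ∃ C' ∈ Cs, x ∈ VK inc C') ∧ (C ≠ Cst → v ∉ VK inc K)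

theorem mem_wks {s : E → Fin 3} {u : V} {D : Finset E} : D ∈ wks inc s u ↔
    ∃ h, (Entry inc s u h ∧ weakK inc (KK inc s h)) ∧ comp inc s h = D := by
  classical
  unfold wks
  rw [mem_image]
  constructor
  · rintro ⟨h, h1, h2⟩
    exact ⟨h, (mem_filter.1 h1).2, h2⟩
  · rintro ⟨h, h1, h2⟩
    exact ⟨h, mem_filter.2 ⟨mem_univ _, h1⟩, h2⟩

/-- number of bad holes -/
noncomputable def BB (inc : E → Finset V) (s : E → Fin 3) (X : Finset E) : ℕ := by
  classical
  exact ((LL inc s X).filter (fun u => 2 ≤ (wks inc s u).card)).card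

theorem step (f1 : S_F1) (fm : S_move) (fl : S_local) (h3 : ∀ e, (inc e).card = 3)
    {s : E → Fin 3} {X : Finset E} {u0 : V} (hu0 : u0 ∈ LL inc s X)
    (hbad : 2 ≤ (wks inc s u0).card)
    (hmin : ∀ t, Opt3 inc t X → BB inc s X ≤ BB inc t X)
    {t : E → Fin 3} {v : V} {Cs : Finset (Finset E)} {Cst : Finset E}
    (H : Ch inc s X u0 t v Cs Cst) :
    ∃ t' v' C' , C' ∉ Cs ∧ Ch inc s X u0 t' v' (insert C' Cs) C' := by
  classical
  have hopt2 : Opt2 inc t := H.opt.1
  have hvLL : v ∈ LL inc t X := by rw [H.LLt]; exact mem_insert_self _ _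
  -- `v` has at least two weak components
  have hv2 : 2 ≤ (wks inc t v).card := by
    by_contra hcon
    have hlt : BB inc t X < BB inc s X := by
      unfold BB
      apply Finset.card_lt_card
      refine ⟨?_, ?_⟩
      · intro u hu
        rw [mem_filter] at hu ⊢
        rw [H.LLt, mem_insert] at hu
        rcases hu.1 with rfl | h4
        · exact absurd hu.2 hcon
        · exact ⟨(mem_erase.1 h4).2, le_trans hu.2 (Finset.card_le_card (H.wk u h4))⟩
      · intro hsub
        have h5 := hsub (mem_filter.2 ⟨hu0, hbad⟩)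
        rw [mem_filter, H.LLt, mem_insert] at h5
        rcases h5.1 with h6 | h6
        · rw [h6] at h5
          exact hcon h5.2
        · exact (mem_erase.1 h6).1 rfl
    have := hmin t H.opt
    omega
  obtain ⟨D, hD, hDne⟩ := Finset.exists_mem_ne (show 1 < (wks inc t v).card by omega) Cst
  rw [mem_wks] at hD
  obtain ⟨h, ⟨hE, hweak⟩, hDh⟩ := hD
  have hDcc : CC inc t D := by rw [← hDh]; exact comp_CC f1 h3 hopt2 hE
  -- `D` is disjoint from the old sets
  have hDdis : ∀ C ∈ Cs, ∀ x ∈ C, x ∉ D := by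
    intro C hC x hx hxD
    have heq : C = D := (H.cc C hC).eq hDcc hx hxD
    obtain ⟨K, hK1, hK2, hK3, hK4⟩ := H.K C hC
    have hne : C ≠ Cst := by rw [heq]; exact hDne
    exact entry_two h3 hE (by rw [hDh, ← heq]; exact hK1) (hK4 hne) hK2
  have hunc : t h = 0 := entry_unc hE
  have hKK : KK inc t h = insert h D := by rw [KK, hDh]
  have hCK : ∀ C ∈ Cs, ∀ x ∈ C, x ∉ KK inc t h := by
    intro C hC x hx hxK
    rw [hKK, mem_insert] at hxK
    rcases hxK with rfl | hxD
    · exact (H.cc C hC).col _ hx hunc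
    · exact hDdis C hC x hx hxD
  obtain ⟨e, heD⟩ := hDcc.ne
  have heK : e ∈ KK inc t h := by rw [hKK]; exact mem_insert_of_mem heD
  have hecol : t e ≠ 0 := hDcc.col e heD
  obtain ⟨t', p, hpe, hkp, hopt', hout, hin, hLL', hE', hKK', hcomp'⟩ :=
    fm V E inc h3 t X H.opt v hvLL h hE e heK
  have hpv : p ≠ v := entry_dg hE hecol hpe
  have hdgp : dg inc t p ≠ 0 := dg_pos.2 ⟨e, hpe, hecol⟩
  have hpLL : p ∉ LL inc t X := by
    intro hp
    unfold LL at hp
    exact hdgp (mem_holes.1 (mem_filter.1 hp).1)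
  have hhe : h ≠ e := by
    rintro rfl
    exact hecol hunc
  set C' := (KK inc t h).erase e with hC'
  have hhC' : h ∈ C' := by
    rw [hC', mem_erase]
    exact ⟨hhe, by rw [hKK]; exact mem_insert_self _ _⟩
  have hC'cc : CC inc t' C' := by rw [← hcomp']; exact comp_CC f1 h3 hopt'.1 hE'
  have hC'not : C' ∉ Cs := by
    intro hmem
    exact hCK C' hmem h hhC' (by rw [hKK]; exact mem_insert_self _ _)
  -- vertices of `KK t h` are `p` or in `C'`
  have hVK : ∀ x ∈ VK inc (KK inc t h), x = p ∨ x ∈ VK inc C' := by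
    intro x hx
    rw [mem_VK] at hx
    obtain ⟨g, hg, hxg⟩ := hx
    by_cases hge : g = e
    · subst hge
      by_cases hxp : x = p
      · exact Or.inl hxp
      · right
        have h5 : dg inc t' x ≠ 0 := by rw [hE'.2.2 x hxg hxp]; omega
        obtain ⟨g', hg1, hg2⟩ := dg_pos.1 h5
        refine mem_VK.2 ⟨g', ?_, hg1⟩
        rw [← hcomp']
        exact comp_touch hg2 hxg hg1
    · right
      exact mem_VK.2 ⟨g, by rw [hC', mem_erase]; exact ⟨hge, hg⟩, hxg⟩
  have hvKK : v ∈ VK inc C' := mem_VK.2 ⟨h, hhC', hE.1⟩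
  refine ⟨t', p, C', hC'not, ⟨hopt', ?_, ?_, ?_, ?_, ?_⟩⟩
  · intro hp
    apply hpLL
    rw [H.LLt]
    exact mem_insert_of_mem hp
  · rw [hLL', H.LLt, Finset.erase_insert H.vA]
  · intro u' hu'
    have hu'LL : u' ∈ LL inc t X := by rw [H.LLt]; exact mem_insert_of_mem hu'
    have hu'v : u' ≠ v := by
      rintro rfl
      exact H.vA hu'
    have hu'0 : dg inc t u' = 0 := by
      unfold LL at hu'LL
      exact mem_holes.1 (mem_filter.1 hu'LL).1
    have hu'K : u' ∉ VK inc (KK inc t h) := fun hmem => hu'v (hole_KK hE hmem hu'0)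
    refine Finset.Subset.trans ?_ (H.wk u' hu')
    intro D' hD'
    rw [mem_wks] at hD'
    obtain ⟨g, ⟨hgE, hgw⟩, hgD⟩ := hD'
    have hdisj : Disjoint (inc g) (VK inc (KK inc t h)) := by
      rw [Finset.disjoint_left]
      intro x hxg hxK
      have hxu : x ≠ u' := by
        rintro rfl
        exact hu'K hxK
      have hdgx : dg inc t' x = 1 := hgE.2.2 x hxg hxu
      have hxp : x ≠ p := by
        rintro rfl
        have := hE'.2.1
        omega
      rcases hVK x hxK with h5 | h5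
      · exact hxp h5
      · obtain ⟨e1, he1, hxe1⟩ := mem_VK.1 h5
        have he1c : e1 ∈ comp inc t' g := comp_touch (hC'cc.col e1 he1) hxg hxe1
        have heq : comp inc t' g = C' :=
          (comp_CC f1 h3 hopt'.1 hgE).eq hC'cc he1c he1
        refine entry_two h3 hgE (K := KK inc t h) ?_ hu'K hweak
        rw [heq, hC']
        exact Finset.erase_subset _ _
    obtain ⟨hl1, hl2⟩ := fl V E inc h3 t t' (KK inc t h) hout
      (fun e' h5 h6 => KK_iso h5 h6) g hdisj
    rw [mem_wks]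
    refine ⟨g, ⟨(hl2 u').1 hgE, ?_⟩, by rw [← hl1, hgD]⟩
    have h7 : KK inc t g = KK inc t' g := by rw [KK, KK, hl1]
    rw [h7]
    exact hgw
  · intro C hC
    rw [mem_insert] at hC
    rcases hC with rfl | hC
    · exact hC'cc
    · have hold := H.cc C hC
      have hsame : ∀ x ∈ C, t' x = t x := fun x hx => hout x (hCK C hC x hx)
      refine ⟨hold.ne, ?_, ?_, ?_⟩
      · intro x hx
        rw [hsame x hx]
        exact hold.col x hx
      · rintro x hx y ⟨hx1, hy1, w, hw1, hw2⟩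
        have hyK : y ∉ KK inc t h := by
          intro hyK
          have h5 := KK_iso (hold.col x hx) (hCK C hC x hx)
          rw [Finset.disjoint_left] at h5
          exact h5 hw1 (mem_VK.2 ⟨y, hyK, hw2⟩)
        apply hold.clo x hx
        refine ⟨hold.col x hx, ?_, w, hw1, hw2⟩
        rw [← hout y hyK]
        exact hy1
      · intro x hx y hy
        have h5 := hold.con x hx y hy
        have h6 : ∀ z, Relation.ReflTransGen (Adj inc t) x z →
            Relation.ReflTransGen (Adj inc t') x z := by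
          intro z hz
          induction hz with
          | refl => exact Relation.ReflTransGen.refl
          | @tail b c hb hbc ih =>
            have hbC : b ∈ C := clo_chain hold.clo hx hb
            have hcC : c ∈ C := hold.clo b hbC c hbc
            refine ih.tail ⟨?_, ?_, hbc.2.2⟩
            · rw [hsame b hbC]; exact hbc.1
            · rw [hsame c hcC]; exact hbc.2.1
        exact h6 y h5
  · intro C hC
    rw [mem_insert] at hC
    rcases hC with rfl | hC
    · refine ⟨KK inc t h, Finset.erase_subset _ _, hweak, ?_, fun hne => absurd rfl hne⟩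
      intro x hx
      rcases hVK x hx with h5 | h5
      · exact Or.inl h5
      · exact Or.inr ⟨_, mem_insert_self _ _, h5⟩
    · obtain ⟨K, hK1, hK2, hK3, hK4⟩ := H.K C hC
      refine ⟨K, hK1, hK2, ?_, ?_⟩
      · intro x hx
        rcases hK3 x hx with rfl | ⟨C1, hC1, h5⟩
        · exact Or.inr ⟨C', mem_insert_self _ _, hvKK⟩
        · exact Or.inr ⟨C1, mem_insert_of_mem hC1, h5⟩
      · intro _ hpK
        rcases hK3 p hpK with h5 | ⟨C1, hC1, h5⟩
        · exact hpv h5
        · obtain ⟨e1, he1, hpe1⟩ := mem_VK.1 h5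
          have h6 : e ∈ C1 := (H.cc C1 hC1).clo e1 he1 e
            ⟨(H.cc C1 hC1).col e1 he1, hecol, p, hpe1, hpe⟩
          exact hDdis C1 hC1 e h6 heD

theorem chain (f1 : S_F1) (fm : S_move) (fl : S_local) (h3 : ∀ e, (inc e).card = 3)
    {s : E → Fin 3} {X : Finset E} (hs : Opt3 inc s X) {u0 : V} (hu0 : u0 ∈ LL inc s X)
    (hbad : 2 ≤ (wks inc s u0).card)
    (hmin : ∀ t, Opt3 inc t X → BB inc s X ≤ BB inc t X) (n : ℕ) :
    ∃ t v Cs Cst, Cs.card = n ∧ Ch inc s X u0 t v Cs Cst := by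
  induction n with
  | zero =>
    refine ⟨s, u0, ∅, ∅, Finset.card_empty, ⟨hs, ?_, ?_, ?_, ?_, ?_⟩⟩
    · exact Finset.notMem_erase _ _
    · rw [Finset.insert_erase hu0]
    · intro u' _
      exact Finset.Subset.refl _
    · intro C hC
      exact absurd hC (Finset.notMem_empty C)
    · intro C hC
      exact absurd hC (Finset.notMem_empty C)
  | succ n ih =>
    obtain ⟨t, v, Cs, Cst, hcard, H⟩ := ih
    obtain ⟨t', v', C', hnot, H'⟩ := step f1 fm fl h3 hu0 hbad hmin H
    exact ⟨t', v', insert C' Cs, C', by rw [Finset.card_insert_of_notMem hnot, hcard], H'⟩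

theorem card_le {t : E → Fin 3} {Cs : Finset (Finset E)} (hcc : ∀ C ∈ Cs, CC inc t C) :
    Cs.card ≤ Fintype.card E := by
  classical
  have h1 : (Cs.biUnion id).card = ∑ C ∈ Cs, (id C).card := by
    apply Finset.card_biUnion
    intro C hC C' hC' hne
    change Disjoint C C'
    rw [Finset.disjoint_left]
    intro x hx hx'
    exact hne ((hcc C hC).eq (hcc C' hC') hx hx')
  have h2 : Cs.card ≤ ∑ C ∈ Cs, (id C).card := by
    rw [Finset.card_eq_sum_ones]
    apply Finset.sum_le_sum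
    intro C hC
    exact Finset.card_pos.2 (hcc C hC).ne
  calc Cs.card ≤ ∑ C ∈ Cs, (id C).card := h2
    _ = (Cs.biUnion id).card := h1.symm
    _ ≤ Fintype.card E := Finset.card_le_univ _

theorem exists_opt3 (inc : E → Finset V) : ∃ s X, Opt3 inc s X := by
  classical
  have h0 : St inc (fun _ => 0) := by
    intro v
    constructor
    · rw [show cnt inc (fun _ => 0) 1 v = 0 from cnt_eq_zero.2 (fun e _ => by decide)]
      omega
    · rw [show cnt inc (fun _ => 0) 2 v = 0 from cnt_eq_zero.2 (fun e _ => by decide)]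
      omega
  obtain ⟨s1, hs1, hm1⟩ := Finset.exists_min_image (univ.filter (fun s => St inc s))
    (fun s => (holes inc s).card) ⟨_, mem_filter.2 ⟨mem_univ _, h0⟩⟩
  have ho1 : Opt1 inc s1 := ⟨(mem_filter.1 hs1).2, fun s' h' =>
    hm1 s' (mem_filter.2 ⟨mem_univ _, h'⟩)⟩
  obtain ⟨s2, hs2, hm2⟩ := Finset.exists_min_image (univ.filter (fun s => Opt1 inc s))
    (fun s => (supp s).card) ⟨_, mem_filter.2 ⟨mem_univ _, ho1⟩⟩
  have ho2 : Opt2 inc s2 := ⟨(mem_filter.1 hs2).2, fun s' h' =>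
    hm2 s' (mem_filter.2 ⟨mem_univ _, h'⟩)⟩
  obtain ⟨q, hq, hmq⟩ := Finset.exists_max_image
    (univ.filter (fun q : (E → Fin 3) × Finset E => Opt2 inc q.1 ∧ TwoH inc q.1 q.2))
    (fun q => q.2.card) ⟨(s2, ∅), mem_filter.2 ⟨mem_univ _, ho2,
      fun f hf => absurd hf (Finset.notMem_empty f), fun f hf => absurd hf (Finset.notMem_empty f)⟩⟩
  have hq' := (mem_filter.1 hq).2
  exact ⟨q.1, q.2, hq'.1, hq'.2, fun s' X' h1 h2 =>
    hmq (s', X') (mem_filter.2 ⟨mem_univ _, h1, h2⟩)⟩

end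

theorem cC : S_F1 → S_F2 → S_oddK → S_move → S_local → S_C := by
  intro f1 _ _ fm fl V E _ _ _ _ inc h3
  classical
  obtain ⟨s0, X0, h0⟩ := exists_opt3 inc
  obtain ⟨q, hq, hmq⟩ := Finset.exists_min_image
    (univ.filter (fun q : (E → Fin 3) × Finset E => Opt3 inc q.1 q.2))
    (fun q => BB inc q.1 q.2) ⟨(s0, X0), mem_filter.2 ⟨mem_univ _, h0⟩⟩
  have hq' : Opt3 inc q.1 q.2 := (mem_filter.1 hq).2
  refine ⟨q.1, q.2, hq', ?_⟩
  intro u0 hu0
  by_contra hcon
  obtain ⟨t, v, Cs, Cst, hcard, H⟩ := chain f1 fm fl h3 hq' hu0 (by omega)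
    (fun t ht => hmq (t, q.2) (mem_filter.2 ⟨mem_univ _, ht⟩)) (Fintype.card E + 1)
  have := card_le H.cc
  omega

end Pool.Agent.W370.CF3
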